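import Mathlib

/-!
# Homologically trivial cycles and heights on surfaces and threefolds over number fields (helper150)
-/

set_option autoImplicit false

namespace Pool.Agent.Y150.IX

/-- Additive maps. -/
def IsAdd {A B : Type} [AddCommGroup A] [AddCommGroup B] (f : A → B) : Prop :=
  ∀ x y, f (x + y) = f x + f y

/-- Biadditive maps. -/
def Biadd {A B C : Type} [AddCommGroup A] [AddCommGroup B] [AddCommGroup C] (f : A → B → C) :
    Prop :=
  (∀ x, IsAdd (f x)) ∧ ∀ y, IsAdd fun x => f x y

/-- The groups of a smooth projective surface `S` over a number field, with rational coefficients: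
`N = Ch^1(S)`, `P = Ch^1(S)^0`, `Z = Ch^2(S)^0` (classes of cycles homologous to zero), the
intersection product of divisor classes with `P`, the height pairing of `P` and `Z`, and the set of
the nef and big divisor classes. -/
structure Surface where
  /-- the divisor classes -/
  N : Type
  /-- the divisor classes homologous to zero -/
  P : Type
  /-- the classes of zero-cycles homologous to zero -/
  Z : Type
  [addN : AddCommGroup N]
  [addP : AddCommGroup P]
  [addZ : AddCommGroup Z]
  [modP : Module ℚ P]
  [modZ : Module ℚ Z]
  /-- the intersection product -/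
  mul : N → P → Z
  /-- the height pairing -/
  ht : P → Z → ℝ
  /-- the nef and big divisor classes -/
  big : Set N
  nonempty : big.Nonempty
  biadd_mul : Biadd mul
  biadd_ht : Biadd ht
  /-- Mordell-Weil theorem for the Picard variety -/
  finite : Module.Finite ℚ P
  symm : ∀ D κ κ', ht κ (mul D κ') = ht κ' (mul D κ)
  /-- the Neron-Tate height on the Picard variety is positive definite -/
  index : ∀ L ∈ big, ∀ κ, κ ≠ 0 → ht κ (mul L κ) < 0
  /-- the isogeny from the Picard variety to the Albanese variety -/
  albanese : ∀ L ∈ big, ∀ z, ∃ κ, ∀ κ', ht κ' z = ht κ' (mul L κ)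

attribute [instance] Surface.addN Surface.addP Surface.addZ Surface.modP Surface.modZ

/-- The groups of a smooth projective threefold `X` over a number field, with rational
coefficients: `N = Ch^1(X)`, `P = Ch^1(X)^0`, `A = Ch^2(X)^0`, `Z = Ch^3(X)^0` (classes of cycles
homologous to zero), the intersection products with divisor classes, the height pairings of `P` and
`Z` and of `A` with itself, and the set of the nef and big divisor classes. -/
structure Threefold where
  /-- the divisor classes -/
  N : Type
  /-- the divisor classes homologous to zero -/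
  P : Type
  /-- the classes of cycles of codimension two homologous to zero -/
  A : Type
  /-- the classes of zero-cycles homologous to zero -/
  Z : Type
  [addN : AddCommGroup N]
  [addP : AddCommGroup P]
  [addA : AddCommGroup A]
  [addZ : AddCommGroup Z]
  [modP : Module ℚ P]
  [modA : Module ℚ A]
  [modZ : Module ℚ Z]
  /-- the intersection product of divisors with `P` -/
  mulP : N → P → A
  /-- the intersection product of divisors with `A` -/
  mulA : N → A → Z
  /-- the height pairing of `P` and `Z` -/
  htP : P → Z → ℝ
  /-- the height pairing of `A` with itself -/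
  ht : A → A → ℝ
  /-- the nef and big divisor classes -/
  big : Set N
  biadd_mulP : Biadd mulP
  biadd_mulA : Biadd mulA
  biadd_htP : Biadd htP
  biadd_ht : Biadd ht
  /-- Mordell-Weil theorem for the Picard variety -/
  finite : Module.Finite ℚ P
  comm : ∀ D D' κ, mulA D (mulP D' κ) = mulA D' (mulP D κ)
  symm : ∀ x y, ht x y = ht y x
  adj : ∀ D κ x, ht (mulP D κ) x = htP κ (mulA D x)
  /-- the Neron-Tate height on the Picard variety is positive definite -/
  index : ∀ L ∈ big, ∀ κ, κ ≠ 0 → htP κ (mulA L (mulP L κ)) < 0

attribute [instance] Threefold.addN Threefold.addP Threefold.addA Threefold.addZ Threefold.modP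
  Threefold.modA Threefold.modZ

/-- Beilinson's first conjecture for the threefold `X`: intersection with `L ^ 2` is an isomorphism
from `Ch^1(X)^0` to `Ch^3(X)^0`. -/
def Threefold.Lefschetz (X : Threefold) (L : X.N) : Prop :=
  Function.Bijective fun κ => X.mulA L (X.mulP L κ)

/-- Beilinson's second conjecture for the threefold `X` and cycles of codimension two: `(x, x) > 0`
for all nonzero `x` in `Ch^2(X)^0` with `L x = 0`. -/
def Threefold.Index (X : Threefold) (L : X.N) : Prop :=
  ∀ x, x ≠ 0 → X.mulA L x = 0 → 0 < X.ht x x

/-- `V` is the product of the surface `S` with the projective line. With the class `ξ` of a fibre of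
the projection to the projective line, `Ch^1(V) = ℚ ξ + Ch^1(S)`, and the classes of cycles homologous
to zero are `Ch^1(S)^0`, `ξ Ch^1(S)^0 + Ch^2(S)^0` and `ξ Ch^2(S)^0`. -/
structure ProdLine (S : Surface) (V : Threefold) where
  /-- the coefficient `a` of a divisor class `a ξ + D`: the degree on the projective lines -/
  coef : V.N → ℚ
  /-- the class `D` of a divisor class `a ξ + D` -/
  base : V.N → S.N
  /-- the identification of `Ch^1(V)^0` with `Ch^1(S)^0` -/
  eP : V.P → S.P
  /-- the identification of `Ch^2(V)^0` with `Ch^1(S)^0 + Ch^2(S)^0`: `ξ κ + z` goes to `(κ, z)` -/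
  eA : V.A → S.P × S.Z
  /-- the identification of `Ch^3(V)^0` with `Ch^2(S)^0` -/
  eZ : V.Z → S.Z
  add_eP : IsAdd eP
  add_eA : IsAdd eA
  add_eZ : IsAdd eZ
  bij_eP : Function.Bijective eP
  bij_eA : Function.Bijective eA
  bij_eZ : Function.Bijective eZ
  mulP : ∀ M κ, eA (V.mulP M κ) = (coef M • eP κ, S.mul (base M) (eP κ))
  mulA : ∀ M x, eZ (V.mulA M x) = coef M • (eA x).2 + S.mul (base M) (eA x).1
  ht : ∀ x y, V.ht x y = S.ht (eA x).1 (eA y).2 + S.ht (eA y).1 (eA x).2

/-- `V'` is the blow-up of the threefold `V` in a curve or a point `C`, with the exceptional divisor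
`j : E → V'`, `p : E → C`, and `J = Ch^1(C)^0` (zero if `C` is a point): the divisor classes are
`f^* D + t E`, and the classes of cycles homologous to zero are `f^* Ch^1(V)^0`,
`f^* Ch^2(V)^0 + j_* p^* J` and `f^* Ch^3(V)^0`. -/
structure BlowUp (V V' : Threefold) where
  /-- the divisor classes of degree zero on the centre -/
  J : Type
  [addJ : AddCommGroup J]
  [modJ : Module ℚ J]
  /-- the height pairing on the centre -/
  htJ : J → J → ℝ
  /-- restriction to the centre -/
  res : V.P → J
  /-- push-forward from the centre -/
  push : J → V.Z
  /-- the coefficient `t` of a divisor class `f^* D + t E` -/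
  coef : V'.N → ℚ
  /-- the class `D` of a divisor class `f^* D + t E` -/
  base : V'.N → V.N
  /-- the identification of `Ch^1(V')^0` with `Ch^1(V)^0` -/
  eP : V'.P → V.P
  /-- the identification of `Ch^2(V')^0` with `Ch^2(V)^0 + J` -/
  eA : V'.A → V.A × J
  /-- the identification of `Ch^3(V')^0` with `Ch^3(V)^0` -/
  eZ : V'.Z → V.Z
  add_push : IsAdd push
  add_eP : IsAdd eP
  add_eA : IsAdd eA
  add_eZ : IsAdd eZ
  bij_eP : Function.Bijective eP
  bij_eA : Function.Bijective eA
  bij_eZ : Function.Bijective eZ
  biadd_htJ : Biadd htJ
  /-- the Neron-Tate height on the centre is positive definite -/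
  neg : ∀ a, a ≠ 0 → htJ a a < 0
  mulP : ∀ M κ, eA (V'.mulP M κ) = (V.mulP (base M) (eP κ), coef M • res (eP κ))
  mulA : ∀ M x, eZ (V'.mulA M x) = V.mulA (base M) (eA x).1 - coef M • push (eA x).2
  ht : ∀ x y, V'.ht x y = V.ht (eA x).1 (eA y).1 - htJ (eA x).2 (eA y).2

attribute [instance] BlowUp.addJ BlowUp.modJ

/-- A generically finite surjective morphism `f : V → X` of threefolds: inverse images, direct
images in codimension two, and the degree. -/
structure Dominates (V X : Threefold) where
  /-- inverse images of divisor classes -/
  pullN : X.N → V.N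
  /-- inverse images in codimension two -/
  pullA : X.A → V.A
  /-- inverse images in codimension three -/
  pullZ : X.Z → V.Z
  /-- direct images in codimension two -/
  pushA : V.A → X.A
  /-- the degree -/
  deg : ℚ
  deg_pos : 0 < deg
  add_pullA : IsAdd pullA
  add_pullZ : IsAdd pullZ
  add_pushA : IsAdd pushA
  push_pull : ∀ x, pushA (pullA x) = deg • x
  proj : ∀ x y, V.ht (pullA x) y = X.ht x (pushA y)
  pull_mul : ∀ D x, V.mulA (pullN D) (pullA x) = pullZ (X.mulA D x)
  big : ∀ L ∈ X.big, pullN L ∈ V.big

/-- The class of threefolds `V`, with sets of divisor classes, generated by the threefolds which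
satisfy Beilinson's conjectures for one nef and big class (with all divisor classes), by the
products of the projective line with arbitrary surfaces (with the classes of positive degree on the
projective lines), and by blow-ups in curves and points (with the classes `f^* D + t E`, `D` in the
given set). -/
inductive Generated : (V : Threefold) → Set V.N → Prop
  | known (V : Threefold) (L : V.N) : L ∈ V.big → V.Lefschetz L → V.Index L →
    Generated V Set.univ
  | prodLine (S : Surface) (V : Threefold) (e : ProdLine S V) : Generated V {M | 0 < e.coef M}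
  | blowUp (V V' : Threefold) (s : Set V.N) (e : BlowUp V V') : Generated V s →
    Generated V' {M | e.base M ∈ s}

end Pool.Agent.Y150.IX
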