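import Pool.Agent.Y150.IX.Defs

/-!
# The arithmetic Hodge index theorem for uniruled threefolds (helper150)
-/

set_option autoImplicit false

namespace Pool.Agent.Y150.IX

open Module

section maps

variable {A B : Type} [AddCommGroup A] [AddCommGroup B]

lemma IsAdd.map_zero {f : A → B} (h : IsAdd f) : f 0 = 0 := by
  have := h 0 0
  rw [add_zero] at this
  exact left_eq_add.1 this

variable [Module ℚ A] [Module ℚ B]

/-- The linear map of an additive map. -/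
def IsAdd.lin {f : A → B} (h : IsAdd f) : A →ₗ[ℚ] B :=
  (AddMonoidHom.mk' f h).toRatLinearMap

lemma IsAdd.lin_apply {f : A → B} (h : IsAdd f) (x : A) : h.lin x = f x := rfl

lemma IsAdd.map_smul {f : A → B} (h : IsAdd f) (c : ℚ) (x : A) : f (c • x) = c • f x :=
  h.lin.map_smul c x

lemma IsAdd.map_neg {f : A → B} (h : IsAdd f) (x : A) : f (-x) = -f x :=
  h.lin.map_neg x

lemma IsAdd.map_sub {f : A → B} (h : IsAdd f) (x y : A) : f (x - y) = f x - f y :=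
  h.lin.map_sub x y

/-- The linear equivalence of an additive bijection. -/
noncomputable def IsAdd.equiv {f : A → B} (h : IsAdd f) (hb : Function.Bijective f) : A ≃ₗ[ℚ] B :=
  LinearEquiv.ofBijective h.lin hb

lemma IsAdd.equiv_apply {f : A → B} (h : IsAdd f) (hb : Function.Bijective f) (x : A) :
    h.equiv hb x = f x := rfl

lemma IsAdd.apply_symm {f : A → B} (h : IsAdd f) (hb : Function.Bijective f) (x : B) :
    f ((h.equiv hb).symm x) = x := (h.equiv hb).apply_symm_apply x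

end maps

/-- The index property. -/
def Good (V : Threefold) (s : Set V.N) : Prop :=
  ∃ (G T : Submodule ℚ V.A) (r : V.P →ₗ[ℚ] V.A), (∀ g ∈ G, g ≠ 0 → 0 < V.ht g g) ∧
    (∀ t ∈ T, ∀ x, V.ht t x = 0) ∧ (∀ x, ∃ g ∈ G, ∃ t ∈ T, ∃ κ, x = g + t + r κ) ∧
    ∀ M ∈ s, ∀ t ∈ T, V.mulA M t = 0 → t = 0

lemma good_known {V : Threefold} {L : V.N} (h1 : V.Lefschetz L) (h2 : V.Index L) :
    Good V Set.univ := by
  refine ⟨LinearMap.ker (V.biadd_mulA.1 L).lin, ⊥, (V.biadd_mulP.1 L).lin, ?_, ?_, ?_, ?_⟩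
  · intro g hg h0
    exact h2 g h0 (LinearMap.mem_ker.1 hg)
  · intro t ht x
    rw [(Submodule.mem_bot ℚ).1 ht]
    exact (V.biadd_ht.2 x).map_zero
  · intro x
    obtain ⟨κ, hκ⟩ := h1.2 (V.mulA L x)
    refine ⟨x - V.mulP L κ, ?_, 0, Submodule.zero_mem _, κ, ?_⟩
    · rw [LinearMap.mem_ker, map_sub, sub_eq_zero]
      exact hκ.symm
    · rw [IsAdd.lin_apply]
      abel
  · intro M _ t ht _
    exact (Submodule.mem_bot ℚ).1 ht

lemma good_prodLine {S : Surface} {V : Threefold} (e : ProdLine S V) :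
    Good V {M | 0 < e.coef M} := by
  obtain ⟨L, hL⟩ := S.nonempty
  let eA := e.add_eA.equiv e.bij_eA
  have hA : ∀ x, e.eA (eA.symm x) = x := e.add_eA.apply_symm e.bij_eA
  have hinj : ∀ x y : V.A, e.eA x = e.eA y → x = y := fun x y h => e.bij_eA.1 h
  have haddA : ∀ x y, e.eA (x + y) = e.eA x + e.eA y := e.add_eA
  let mL : S.P →ₗ[ℚ] S.Z := (S.biadd_mul.1 L).lin
  let g : S.P →ₗ[ℚ] S.P × S.Z := LinearMap.prod LinearMap.id (-mL)
  have hg : ∀ κ, g κ = (κ, -(S.mul L κ)) := fun κ => rfl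
  let Tn : Submodule ℚ S.Z := LinearMap.ker (LinearMap.pi fun κ => (S.biadd_ht.1 κ).lin)
  have hTn : ∀ z, z ∈ Tn ↔ ∀ κ, S.ht κ z = 0 := by
    intro z
    rw [LinearMap.mem_ker]
    exact funext_iff
  refine ⟨(LinearMap.range g).map eA.symm.toLinearMap,
    (Tn.map (LinearMap.inr ℚ S.P S.Z)).map eA.symm.toLinearMap,
    eA.symm.toLinearMap ∘ₗ LinearMap.inr ℚ S.P S.Z ∘ₗ mL ∘ₗ e.add_eP.lin, ?_, ?_, ?_, ?_⟩
  · rintro _ ⟨_, ⟨κ, rfl⟩, rfl⟩ h0
    have hκ : κ ≠ 0 := by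
      rintro rfl
      exact h0 (by rw [map_zero, map_zero])
    have h := S.index L hL κ hκ
    have h1 : e.eA (eA.symm (g κ)) = (κ, -(S.mul L κ)) := hA _
    change 0 < V.ht (eA.symm (g κ)) (eA.symm (g κ))
    rw [e.ht, h1]
    change 0 < S.ht κ (-(S.mul L κ)) + S.ht κ (-(S.mul L κ))
    rw [(S.biadd_ht.1 κ).map_neg]
    linarith
  · rintro _ ⟨_, ⟨z, hz, rfl⟩, rfl⟩ x
    have hz' : ∀ κ, S.ht κ z = 0 := (hTn z).1 hz
    have h1 : e.eA (eA.symm (LinearMap.inr ℚ S.P S.Z z)) = (0, z) := hA _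
    change V.ht (eA.symm (LinearMap.inr ℚ S.P S.Z z)) x = 0
    rw [e.ht, h1]
    change S.ht 0 (e.eA x).2 + S.ht (e.eA x).1 z = 0
    rw [hz', (S.biadd_ht.2 _).map_zero, add_zero]
  · intro x
    obtain ⟨κ, z, hx⟩ : ∃ κ z, e.eA x = (κ, z) := ⟨_, _, rfl⟩
    obtain ⟨κ', hκ'⟩ := S.albanese L hL (z + S.mul L κ)
    obtain ⟨κ₁, rfl⟩ := e.bij_eP.2 κ'
    refine ⟨eA.symm (g κ), ⟨_, ⟨κ, rfl⟩, rfl⟩, eA.symm (0, z + S.mul L κ - S.mul L (e.eP κ₁)),
      ⟨_, ⟨_, (hTn _).2 fun κ'' => ?_, rfl⟩, rfl⟩, κ₁, ?_⟩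
    · have h1 := (S.biadd_ht.1 κ'').map_sub (z + S.mul L κ) (S.mul L (e.eP κ₁))
      rw [hκ', sub_self] at h1
      exact h1
    · apply hinj
      change e.eA x = e.eA (eA.symm (g κ) + eA.symm (0, z + S.mul L κ - S.mul L (e.eP κ₁))
        + eA.symm (0, S.mul L (e.eP κ₁)))
      rw [haddA, haddA, hA, hA, hA, hx, hg]
      refine Prod.ext ?_ ?_
      · change κ = κ + 0 + 0
        rw [add_zero, add_zero]
      · change z = -(S.mul L κ) + (z + S.mul L κ - S.mul L (e.eP κ₁)) + S.mul L (e.eP κ₁)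
        abel
  · rintro M hM _ ⟨_, ⟨z, hz, rfl⟩, rfl⟩ h0
    have hM' : (0 : ℚ) < e.coef M := hM
    have h1 : e.eA (eA.symm (LinearMap.inr ℚ S.P S.Z z)) = (0, z) := hA _
    have h0' : V.mulA M (eA.symm (LinearMap.inr ℚ S.P S.Z z)) = 0 := h0
    have h2 := e.mulA M (eA.symm (LinearMap.inr ℚ S.P S.Z z))
    rw [h0', h1, e.add_eZ.map_zero] at h2
    have h3 : (0 : S.Z) = e.coef M • z + S.mul (e.base M) 0 := h2
    rw [(S.biadd_mul.1 _).map_zero, add_zero] at h3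
    rcases smul_eq_zero.1 h3.symm with h | h
    · exact absurd h hM'.ne'
    · rw [h, map_zero, map_zero]

lemma good_blowUp {V V' : Threefold} {s : Set V.N} (h : Good V s) (e : BlowUp V V') :
    Good V' {M | e.base M ∈ s} := by
  obtain ⟨G, T, r, hG, hT, hs, hk⟩ := h
  let eA := e.add_eA.equiv e.bij_eA
  have hA : ∀ x, e.eA (eA.symm x) = x := e.add_eA.apply_symm e.bij_eA
  have hinj : ∀ x y : V'.A, e.eA x = e.eA y → x = y := fun x y h => e.bij_eA.1 h
  have haddA : ∀ x y, e.eA (x + y) = e.eA x + e.eA y := e.add_eA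
  refine ⟨(G.prod ⊤).map eA.symm.toLinearMap,
    (T.map (LinearMap.inl ℚ V.A e.J)).map eA.symm.toLinearMap,
    eA.symm.toLinearMap ∘ₗ LinearMap.inl ℚ V.A e.J ∘ₗ r ∘ₗ e.add_eP.lin, ?_, ?_, ?_, ?_⟩
  · rintro _ ⟨⟨g, a⟩, hg, rfl⟩ h0
    have h1 : e.eA (eA.symm (g, a)) = (g, a) := hA _
    change 0 < V'.ht (eA.symm (g, a)) (eA.symm (g, a))
    rw [e.ht, h1]
    change 0 < V.ht g g - e.htJ a a
    by_cases ha : a = 0
    · have hg0 : g ≠ 0 := by
        rintro rfl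
        refine h0 ?_
        rw [ha]
        exact map_zero eA.symm
      rw [ha, (e.biadd_htJ.1 0).map_zero, sub_zero]
      exact hG g hg.1 hg0
    · have h1 := e.neg a ha
      by_cases hg0 : g = 0
      · rw [hg0, (V.biadd_ht.1 0).map_zero]
        linarith
      · have h2 := hG g hg.1 hg0
        linarith
  · rintro _ ⟨_, ⟨t, ht, rfl⟩, rfl⟩ x
    have h1 : e.eA (eA.symm (LinearMap.inl ℚ V.A e.J t)) = (t, 0) := hA _
    change V'.ht (eA.symm (LinearMap.inl ℚ V.A e.J t)) x = 0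
    rw [e.ht, h1]
    change V.ht t (e.eA x).1 - e.htJ 0 (e.eA x).2 = 0
    rw [hT t ht, (e.biadd_htJ.2 _).map_zero, sub_zero]
  · intro x
    obtain ⟨y, a, hx⟩ : ∃ y a, e.eA x = (y, a) := ⟨_, _, rfl⟩
    obtain ⟨g, hg, t, ht, κ, rfl⟩ := hs y
    obtain ⟨κ₁, rfl⟩ := e.bij_eP.2 κ
    refine ⟨eA.symm (g, a), ⟨_, ⟨hg, trivial⟩, rfl⟩, eA.symm (t, 0), ⟨_, ⟨t, ht, rfl⟩, rfl⟩, κ₁,
      ?_⟩
    apply hinj
    change e.eA x = e.eA (eA.symm (g, a) + eA.symm (t, 0) + eA.symm (r (e.eP κ₁), 0))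
    rw [haddA, haddA, hA, hA, hA, hx]
    refine Prod.ext ?_ ?_
    · rfl
    · change a = a + 0 + 0
      rw [add_zero, add_zero]
  · rintro M hM _ ⟨_, ⟨t, ht, rfl⟩, rfl⟩ h0
    have h1 : e.eA (eA.symm (LinearMap.inl ℚ V.A e.J t)) = (t, 0) := hA _
    have h0' : V'.mulA M (eA.symm (LinearMap.inl ℚ V.A e.J t)) = 0 := h0
    have h2 := e.mulA M (eA.symm (LinearMap.inl ℚ V.A e.J t))
    rw [h0', h1, e.add_eZ.map_zero] at h2
    have h3 : (0 : V.Z) = V.mulA (e.base M) t - e.coef M • e.push 0 := h2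
    rw [e.add_push.map_zero, smul_zero, sub_zero] at h3
    rw [hk _ hM t ht h3.symm, map_zero, map_zero]

lemma good_of_generated {V : Threefold} {s : Set V.N} (h : Generated V s) : Good V s := by
  induction h with
  | known V L _ h1 h2 => exact good_known h1 h2
  | prodLine S V e => exact good_prodLine e
  | blowUp V V' s e _ ih => exact good_blowUp ih e

/-- The main step. -/
lemma main_step {V : Threefold} {s : Set V.N} (h : Good V s) {M : V.N} (hM : M ∈ V.big)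
    (hMs : M ∈ s) {y : V.A} (hy : V.mulA M y = 0) (hn : V.ht y y ≤ 0) : y = 0 := by
  obtain ⟨G, T, r, hG, hT, hs, hk⟩ := h
  have := V.finite
  let Q := V.A ⧸ (G ⊔ T)
  have hr : Function.Surjective ((G ⊔ T).mkQ ∘ₗ r) := by
    intro q
    obtain ⟨x, rfl⟩ := (G ⊔ T).mkQ_surjective q
    obtain ⟨g, hg, t, ht, κ, rfl⟩ := hs x
    refine ⟨κ, ?_⟩
    rw [LinearMap.comp_apply, Submodule.mkQ_apply, Submodule.mkQ_apply, Submodule.Quotient.eq]
    have : r κ - (g + t + r κ) = -(g + t) := by abel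
    rw [this]
    exact Submodule.neg_mem _ (Submodule.add_mem_sup hg ht)
  have hfin : Module.Finite ℚ Q := Module.Finite.of_surjective _ hr
  have hle : finrank ℚ Q ≤ finrank ℚ V.P := LinearMap.finrank_le_finrank_of_surjective hr
  let Φ : V.P × ℚ →ₗ[ℚ] V.A :=
    LinearMap.coprod (V.biadd_mulP.1 M).lin (LinearMap.toSpanSingleton ℚ V.A y)
  have hlt : finrank ℚ Q < finrank ℚ (V.P × ℚ) := by
    rw [finrank_prod, finrank_self]
    omega
  have hker := LinearMap.ker_ne_bot_of_finrank_lt (f := (G ⊔ T).mkQ ∘ₗ Φ) hlt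
  obtain ⟨⟨κ, c⟩, hkc, hne⟩ := (Submodule.ne_bot_iff _).1 hker
  have hmem : Φ (κ, c) ∈ G ⊔ T := by
    rw [LinearMap.mem_ker, LinearMap.comp_apply, Submodule.mkQ_apply,
      Submodule.Quotient.mk_eq_zero] at hkc
    exact hkc
  obtain ⟨g, hg, t, ht, hgt⟩ := Submodule.mem_sup.1 hmem
  have hΦ : Φ (κ, c) = V.mulP M κ + c • y := by
    simp only [Φ, LinearMap.coprod_apply, LinearMap.toSpanSingleton_apply, IsAdd.lin_apply]
  rw [hΦ] at hgt
  have haL : ∀ x y z, V.ht (x + y) z = V.ht x z + V.ht y z := fun x y z => V.biadd_ht.2 z x y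
  have haR : ∀ x y z, V.ht x (y + z) = V.ht x y + V.ht x z := fun x => V.biadd_ht.1 x
  have hsL : ∀ (c : ℚ) (x z), V.ht (c • x) z = (c : ℝ) * V.ht x z := fun c x z => by
    rw [(V.biadd_ht.2 z).map_smul, Rat.smul_def]
  have hsR : ∀ (c : ℚ) (x z), V.ht x (c • z) = (c : ℝ) * V.ht x z := fun c x z => by
    rw [(V.biadd_ht.1 x).map_smul, Rat.smul_def]
  have e1 : V.ht (g + t) (g + t) = V.ht g g := by
    have b1 : V.ht t g = 0 := hT t ht g
    have b2 : V.ht t t = 0 := hT t ht t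
    have b3 : V.ht g t = 0 := by rw [V.symm, b1]
    simp only [haL, haR, b1, b2, b3, add_zero]
  have e2 : V.ht (V.mulP M κ + c • y) (V.mulP M κ + c • y)
      = V.htP κ (V.mulA M (V.mulP M κ)) + (c : ℝ) ^ 2 * V.ht y y := by
    have a1 : V.ht (V.mulP M κ) y = 0 := by rw [V.adj, hy, (V.biadd_htP.1 κ).map_zero]
    have a2 : V.ht y (V.mulP M κ) = 0 := by rw [V.symm, a1]
    have a3 : V.ht (V.mulP M κ) (V.mulP M κ) = V.htP κ (V.mulA M (V.mulP M κ)) := V.adj _ _ _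
    simp only [haL, haR, hsL, hsR, a1, a2, a3]
    ring
  rw [hgt, e2] at e1
  have hg0 : 0 ≤ V.ht g g := by
    by_cases h0 : g = 0
    · rw [h0, (V.biadd_ht.1 0).map_zero]
    · exact (hG g hg h0).le
  have hc2 : (c : ℝ) ^ 2 * V.ht y y ≤ 0 := mul_nonpos_of_nonneg_of_nonpos (sq_nonneg _) hn
  have hκ : κ = 0 := by
    by_contra h0
    have := V.index M hM κ h0
    linarith
  have hgz : g = 0 := by
    by_contra h0
    have h1 := hG g hg h0
    rw [hκ, (V.biadd_htP.2 _).map_zero, zero_add] at e1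
    linarith
  have hc : c ≠ 0 := by
    rintro rfl
    exact hne (by rw [hκ]; rfl)
  have hyT : y ∈ T := by
    rw [hκ, hgz, (V.biadd_mulP.1 M).map_zero, zero_add, zero_add] at hgt
    rw [hgt] at ht
    have := T.smul_mem c⁻¹ ht
    rwa [smul_smul, inv_mul_cancel₀ hc, one_smul] at this
  exact hk M hMs y hyT hy

theorem index_of_dominates {V X : Threefold} {s : Set V.N} (h : Generated V s)
    (f : Dominates V X) {L : X.N} (hL : L ∈ X.big) (hs : f.pullN L ∈ s) : X.Index L := by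
  intro x hx hLx
  by_contra hn
  rw [not_lt] at hn
  have hd : (0 : ℝ) < (f.deg : ℝ) := by exact_mod_cast f.deg_pos
  have h1 : V.ht (f.pullA x) (f.pullA x) ≤ 0 := by
    rw [f.proj, f.push_pull, (X.biadd_ht.1 x).map_smul, Rat.smul_def]
    exact mul_nonpos_of_nonneg_of_nonpos hd.le hn
  have h2 : V.mulA (f.pullN L) (f.pullA x) = 0 := by
    rw [f.pull_mul, hLx, f.add_pullZ.map_zero]
  have h3 := main_step (good_of_generated h) (f.big L hL) hs h2 h1
  have h4 := f.push_pull x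
  rw [h3, f.add_pushA.map_zero] at h4
  rcases smul_eq_zero.1 h4.symm with h5 | h5
  · exact f.deg_pos.ne' h5
  · exact hx h5

end Pool.Agent.Y150.IX
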